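import Pool.Agent.Helper57_K9.Stmts
import Pool.Agent.Helper55_KF.Fm4
import Pool.Agent.Helper75_PP.Corner

/-!
# K9, row INX: the inertial index is prime to the characteristic
-/

open scoped BigOperators

noncomputable section

namespace Pool.Agent.PP.K9.H34

open Pool.Agent.Helper51_AWC Pool.Agent.Helper79_WRA Pool.Agent.PP Pool.Agent.PP.KF

attribute [local instance] Ideal.Quotient.field

section comp

variable {F X : Type} [Field F] [Group X]

theorem mulF_comp (φ : X ≃* X) (a b : X → F) :
    (fun x => mulF a b (φ x)) = mulF (fun x => a (φ x)) (fun x => b (φ x)) := by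
  funext x
  unfold mulF
  rw [← finsum_comp_equiv φ.toEquiv]
  apply finsum_congr
  intro t
  change a (φ t) * b ((φ t)⁻¹ * φ x) = a (φ t) * b (φ (t⁻¹ * x))
  rw [map_mul, map_inv]

theorem isCl_comp (φ : X ≃* X) {a : X → F} (ha : IsCl a) : IsCl (fun x => a (φ x)) := by
  intro x y
  change a (φ (y * x * y⁻¹)) = a (φ x)
  rw [map_mul, map_mul, map_inv]
  exact ha _ _

theorem isChar_comp (φ : X ≃* X) {lam : (X → F) → F} (h : H50.IsChar lam) :
    H50.IsChar (fun a => lam (fun x => a (φ x))) where
  sub a b ha hb := h.sub _ _ (isCl_comp φ ha) (isCl_comp φ hb)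
  smul c a ha := h.smul c _ (isCl_comp φ ha)
  mul a b ha hb := by
    change lam (fun x => mulF a b (φ x)) = _
    rw [mulF_comp φ a b]
    exact h.mul _ _ (isCl_comp φ ha) (isCl_comp φ hb)

end comp

section grp

variable {G : Type} [Group G]

theorem conj_cent {V : Subgroup G} {t x : G} (ht : t ∈ Subgroup.normalizer (V : Set G))
    (hx : x ∈ Subgroup.centralizer (V : Set G)) : t * x * t⁻¹ ∈ Subgroup.centralizer (V : Set G) := by
  rw [Subgroup.mem_centralizer_iff]
  intro v hv
  have h1 : t⁻¹ * v * t ∈ V := by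
    have := (Subgroup.mem_normalizer_iff.1 (inv_mem ht) v).1 hv
    rwa [inv_inv] at this
  have h2 := Subgroup.mem_centralizer_iff.1 hx _ h1
  calc v * (t * x * t⁻¹) = t * (t⁻¹ * v * t * x) * t⁻¹ := by group
    _ = t * (x * (t⁻¹ * v * t)) * t⁻¹ := by rw [h2]
    _ = t * x * t⁻¹ * v := by group

/-- conjugation by an element of the normaliser of `V`, on the centraliser of `V` -/
def cj (V : Subgroup G) (t : G) (ht : t ∈ Subgroup.normalizer (V : Set G)) :
    Subgroup.centralizer (V : Set G) ≃* Subgroup.centralizer (V : Set G) where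
  toFun x := ⟨t * x * t⁻¹, conj_cent ht x.2⟩
  invFun x := ⟨t⁻¹ * x * t, by
    have := conj_cent (inv_mem ht) x.2
    rwa [inv_inv] at this⟩
  left_inv x := Subtype.ext (by change t⁻¹ * (t * x * t⁻¹) * t = x; group)
  right_inv x := Subtype.ext (by change t * (t⁻¹ * x * t) * t⁻¹ = x; group)
  map_mul' x y := Subtype.ext (by
    change t * (x * y) * t⁻¹ = t * x * t⁻¹ * (t * y * t⁻¹)
    group)

theorem cj_coe (V : Subgroup G) (t : G) (ht : t ∈ Subgroup.normalizer (V : Set G))
    (x : Subgroup.centralizer (V : Set G)) : ((cj V t ht x : Subgroup.centralizer (V : Set G)) : G) =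
      t * x * t⁻¹ := rfl

/-- the action on the classes of the centraliser -/
def act (V P : Subgroup G) (hP : P ≤ Subgroup.normalizer (V : Set G)) :
    MulAction P (ConjClasses (Subgroup.centralizer (V : Set G))) where
  smul p c := ConjClasses.map (cj V p (hP p.2)).toMonoidHom c
  one_smul c := by
    induction c using Quotient.inductionOn with
    | h x =>
      change ConjClasses.mk (cj V ((1 : P) : G) _ x) = ConjClasses.mk x
      congr 1
      apply Subtype.ext
      rw [cj_coe]
      simp
  mul_smul p q c := by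
    induction c using Quotient.inductionOn with
    | h x =>
      change ConjClasses.mk (cj V ((p * q : P) : G) _ x) =
        ConjClasses.mk (cj V (p : G) _ (cj V (q : G) _ x))
      congr 1
      apply Subtype.ext
      rw [cj_coe, cj_coe, cj_coe]
      push_cast
      group

/-- an element of order prime to `ℓ` modulo `X` -/
theorem not_mem_pow {ℓ : ℕ} (hl : ℓ.Prime) {T : Type} [Group T] {X : Subgroup T} [X.Normal] {q : T}
    (hq : q ∉ X) {m b : ℕ} (h1 : q ^ ℓ ^ m ∈ X) (hb : ¬ ℓ ∣ b) : q ^ b ∉ X := by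
  intro h
  apply hq
  rw [← QuotientGroup.eq_one_iff] at h h1 ⊢
  have e1 : ((q : T) : T ⧸ X) ^ b = 1 := by rw [← QuotientGroup.mk_pow]; exact h
  have e2 : ((q : T) : T ⧸ X) ^ ℓ ^ m = 1 := by rw [← QuotientGroup.mk_pow]; exact h1
  have e3 := Nat.dvd_gcd (orderOf_dvd_of_pow_eq_one e1) (orderOf_dvd_of_pow_eq_one e2)
  have e4 : Nat.gcd b (ℓ ^ m) = 1 :=
    Nat.Coprime.pow_right m ((Nat.Prime.coprime_iff_not_dvd hl).2 hb).symm
  rw [e4, Nat.dvd_one, orderOf_eq_one_iff] at e3
  exact e3

end grp

variable {M : Ideal (integralClosure ℤ ℂ)} [hM : M.IsMaximal]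

theorem lab_conj {X : Type} [Group X] (χ : X → ℂ) {a b : X} (h : IsConj a b) :
    labF M χ a = labF M χ b := by
  unfold labF
  rw [H50.omega_isConj χ h]

/-- the labels are invariant under the inertial group -/
theorem lab_inv {G : Type} [Group G] [Finite G] {V : Subgroup G} {γ : G → FF M}
    (hγ : IsBlk (fun t : Subgroup.centralizer (V : Set G) => γ t))
    {χ : Subgroup.centralizer (V : Set G) → ℂ} (hχ : χ ∈ Irr (Subgroup.centralizer (V : Set G)))
    (h1 : res M (fun t : Subgroup.centralizer (V : Set G) => γ t) χ = 1) {t : G}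
    (ht : t ∈ Subgroup.normalizer (V : Set G)) (hs : t ∈ stabF γ)
    (x : Subgroup.centralizer (V : Set G)) : labF M χ (cj V t ht x) = labF M χ x := by
  have hl := H50.isChar_res (M := M) hχ
  have hl' := isChar_comp (cj V t ht) hl
  have h2 := H50.char_uniq hγ hl hl' h1 (by
    change res M (fun x : Subgroup.centralizer (V : Set G) => γ (t * x * t⁻¹)) χ = 1
    have h3 : (fun x : Subgroup.centralizer (V : Set G) => γ (t * x * t⁻¹)) =
        fun x : Subgroup.centralizer (V : Set G) => γ x := by
      funext x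
      exact hs x
    rw [h3]
    exact h1) (H50.isCl_clsum (F := FF M) (cj V t ht x))
  have h4 : (fun z => clsum (FF M) (⊤ : Subgroup (Subgroup.centralizer (V : Set G)))
      (cj V t ht x) (cj V t ht z)) =
      clsum (FF M) (⊤ : Subgroup (Subgroup.centralizer (V : Set G))) x := by
    funext z
    unfold clsum
    have hiff : (∃ q ∈ (⊤ : Subgroup (Subgroup.centralizer (V : Set G))),
        cj V t ht z = q * cj V t ht x * q⁻¹) ↔
        ∃ q ∈ (⊤ : Subgroup (Subgroup.centralizer (V : Set G))), z = q * x * q⁻¹ := by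
      constructor
      · rintro ⟨q, -, hq⟩
        refine ⟨(cj V t ht).symm q, Subgroup.mem_top _, (cj V t ht).injective ?_⟩
        rw [map_mul, map_mul, map_inv, MulEquiv.apply_symm_apply]
        exact hq
      · rintro ⟨q, -, hq⟩
        exact ⟨cj V t ht q, Subgroup.mem_top _, by rw [hq, map_mul, map_mul, map_inv]⟩
    by_cases h : ∃ q ∈ (⊤ : Subgroup (Subgroup.centralizer (V : Set G))), z = q * x * q⁻¹
    · rw [if_pos h, if_pos (hiff.2 h)]
    · rw [if_neg h, if_neg (fun h' => h (hiff.1 h'))]
  change res M (clsum (FF M) (⊤ : Subgroup (Subgroup.centralizer (V : Set G))) (cj V t ht x)) χ =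
    res M (fun z => clsum (FF M) (⊤ : Subgroup (Subgroup.centralizer (V : Set G)))
      (cj V t ht x) (cj V t ht z)) χ at h2
  rw [h4, H50.res_clsum, H50.res_clsum] at h2
  exact h2

/-- INX -/
theorem inx : InxStmt := by
  intro ℓ hℓ M _ hlM G _ _ e he V hV hab γ hγX hγ hbγ hdiv
  classical
  set X := Subgroup.centralizer (V : Set G) with hX
  have hF : GoodF ℓ (FF M) := H50.fld ℓ hℓ.out M hlM
  have := hF.char
  have hXN : X ≤ Subgroup.normalizer (V : Set G) := Subgroup.centralizer_le_normalizer _
  have hVX : V ≤ X := by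
    intro a ha
    rw [Subgroup.mem_centralizer_iff]
    exact fun b hb => hab b hb a ha
  obtain ⟨y, hy0, c, hc, hcy⟩ := KF.H55.exists_y he
  obtain ⟨χ, hχ, hχγ, -⟩ := H50.exists_irr_blk hγ
  have hK := H50.isCl_clsum (F := FF M) y
  set k : X → FF M := fun t => clsum (FF M) (⊤ : Subgroup G) y (t : G) with hk
  have hkc : IsCl k := fun a b => hK (a : G) (b : G)
  have hcc : IsCl (fun t : X => c t) := fun a b => hc (a : G) (b : G)
  -- the class sum is invertible on `γ`
  have hE : mulF (mulF (fun t : X => c t) k) (fun t : X => γ t) = fun t : X => γ t := by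
    have h1 : mulF (mulF (br V c) (br V (clsum (FF M) (⊤ : Subgroup G) y))) (br V e) = br V e := by
      rw [← H66.br_mulF hF hV.pg (H66.IsCl.inv hc V) (H66.IsCl.inv hK V),
        ← H66.br_mulF hF hV.pg (H66.IsCl.inv (H50.isCl_mulF hc hK) V) (H66.IsCl.inv he.1.1 V), hcy]
    have h2 : mulF (mulF (br V c) (br V (clsum (FF M) (⊤ : Subgroup G) y))) γ = γ := by
      have h3 : ma (mulF (mulF (br V c) (br V (clsum (FF M) (⊤ : Subgroup G) y))) γ) = ma γ := by
        conv_lhs => rw [← hbγ]
        rw [ma_mul, ma_mul (br V e) γ, ← mul_assoc, ← ma_mul, h1, ← ma_mul, hbγ]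
      exact ma_injective h3
    have hs : ∀ a : G → FF M, ∀ x, x ∉ X → br V a x = 0 := fun a x hx => H66.br_of_not_mem hx
    have hr : ∀ a : G → FF M, (fun t : X => br V a t) = fun t : X => a t := fun a => by
      funext t
      exact H66.br_of_mem t.2
    have h4 : (fun t : X => mulF (mulF (br V c) (br V (clsum (FF M) (⊤ : Subgroup G) y))) γ t) =
        fun t : X => γ t := by rw [h2]
    rw [H75.mulF_res X γ (H75.mulF_supp X (hs c) (hs _)), H75.mulF_res X _ (hs c), hr, hr] at h4
    exact h4
  have hk0 : res M k χ ≠ 0 := by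
    intro h0
    have := Fintype.ofFinite X
    have h1 := congrArg (fun a => res M a χ) hE
    change res M (mulF (mulF (fun t : X => c t) k) (fun t : X => γ t)) χ = _ at h1
    rw [H50.res_mul (H50.isCl_mulF hcc hkc) hγ.1.1 hχ, H50.res_mul hcc hkc hχ, h0, mul_zero,
      zero_mul] at h1
    rw [hχγ] at h1
    exact zero_ne_one h1
  -- a Sylow subgroup of the inertial group
  obtain ⟨P, hP, hPT, p0, hp0, hp0X⟩ : ∃ P : Subgroup G, IsPGroup ℓ P ∧
      P ≤ Subgroup.normalizer (V : Set G) ⊓ stabF γ ∧ ∃ p ∈ P, p ∉ X := by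
    let S : Sylow ℓ (Subgroup.normalizer (V : Set G) ⊓ stabF γ : Subgroup G) := default
    refine ⟨(S : Subgroup (Subgroup.normalizer (V : Set G) ⊓ stabF γ : Subgroup G)).map
      (Subgroup.subtype _), S.2.map _, ?_, ?_⟩
    · rintro _ ⟨s, -, rfl⟩
      exact s.2
    · by_contra hcon
      push Not at hcon
      apply S.not_dvd_index
      have h1 : (S : Subgroup (Subgroup.normalizer (V : Set G) ⊓ stabF γ : Subgroup G)) ≤
          X.subgroupOf (Subgroup.normalizer (V : Set G) ⊓ stabF γ) := by
        intro s hs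
        exact hcon s ⟨s, hs, rfl⟩
      exact hdiv.trans (Subgroup.index_dvd_of_le h1)
  -- the orbits of the Sylow subgroup on the classes
  let inst : MulAction P (ConjClasses X) := act V P (hPT.trans inf_le_left)
  have := Fintype.ofFinite (ConjClasses X)
  have hout : ∀ x : X, IsConj (Quotient.out (ConjClasses.mk x)) x := fun x =>
    ConjClasses.mk_eq_mk_iff_isConj.1 (Quotient.out_eq (ConjClasses.mk x))
  have hkout : ∀ a b : X, IsConj a b → k a = k b := by
    intro a b hab
    obtain ⟨z, hz⟩ := isConj_iff.1 hab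
    rw [← hz]
    exact (hkc a z).symm
  apply hk0
  rw [H50.res_eq_lab, finsum_eq_sum_of_fintype, Pool.Agent.PP.H74.orbit_sum_ring hP _ ?_]
  · refine Finset.sum_eq_zero fun d hd => ?_
    have hfix := (Finset.mem_filter.1 hd).2 ⟨p0, hp0⟩
    induction d using Quotient.inductionOn with
    | h x =>
      by_contra hne
      have hkx : k x ≠ 0 := by
        have h5 : k (Quotient.out (ConjClasses.mk x)) ≠ 0 := left_ne_zero_of_mul hne
        rwa [hkout _ _ (hout x)] at h5
      have hp0N := (hPT hp0).1
      have h1 : IsConj (cj V p0 hp0N x) x := ConjClasses.mk_eq_mk_iff_isConj.1 hfix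
      obtain ⟨z, hz⟩ := isConj_iff.1 h1
      have hz' : (z : G) * (p0 * x * p0⁻¹) * (z : G)⁻¹ = x := congrArg Subtype.val hz
      obtain ⟨r, hr⟩ : ∃ r, (x : G) = r * y * r⁻¹ := by
        by_contra hcon
        apply hkx
        change clsum (FF M) (⊤ : Subgroup G) y (x : G) = 0
        unfold clsum
        rw [if_neg]
        rintro ⟨q, -, hq⟩
        exact hcon ⟨q, hq⟩
      have hex : e x ≠ 0 := by
        rw [hr, he.1.1 y r]
        exact hy0
      -- an element of the normaliser of `V` which commutes with `x`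
      set q : G := z * p0 with hq
      have hqx : q * x = x * q := by
        have h2 : q * x * q⁻¹ = x := by
          rw [hq]
          calc (z : G) * p0 * x * (z * p0)⁻¹ = z * (p0 * x * p0⁻¹) * (z : G)⁻¹ := by group
            _ = x := hz'
        calc q * x = q * x * q⁻¹ * q := by group
          _ = x * q := by rw [h2]
      have hqN : q ∈ Subgroup.normalizer (V : Set G) := mul_mem (hXN z.2) hp0N
      -- powers of `q` modulo `X`
      let N := Subgroup.normalizer (V : Set G)
      let X' : Subgroup N := X.subgroupOf N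
      have hX'n : X'.Normal := ⟨fun a ha b => conj_cent b.2 ha⟩
      let qN : N := ⟨q, hqN⟩
      let zN : N := ⟨z, hXN z.2⟩
      let pN : N := ⟨p0, hp0N⟩
      have hqz : qN = zN * pN := rfl
      obtain ⟨m, hm⟩ := hP ⟨p0, hp0⟩
      have hm' : p0 ^ ℓ ^ m = 1 := congrArg Subtype.val hm
      have hpow : qN ^ ℓ ^ m ∈ X' := by
        rw [← QuotientGroup.eq_one_iff, QuotientGroup.mk_pow, hqz, QuotientGroup.mk_mul,
          (QuotientGroup.eq_one_iff zN).2 z.2, one_mul, ← QuotientGroup.mk_pow,
          QuotientGroup.eq_one_iff]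
        have h5 : pN ^ ℓ ^ m = 1 := Subtype.ext hm'
        rw [h5]
        exact one_mem _
      have hqX : qN ∉ X' := by
        intro h
        apply hp0X
        have h5 : (z : G)⁻¹ * q ∈ X := mul_mem (inv_mem z.2) h
        rwa [hq, inv_mul_cancel_left] at h5
      have hord : orderOf q ≠ 0 := (orderOf_pos q).ne'
      obtain ⟨a, b, hb, hab'⟩ := Nat.exists_eq_pow_mul_and_not_dvd hord ℓ hℓ.out.ne_one
      have hqb : qN ^ b ∉ X' := not_mem_pow hℓ.out hqX hpow hb
      have hqb' : q ^ b ∉ X := hqb
      have hq1 : (q ^ b) ^ ℓ ^ a = 1 := by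
        rw [← pow_mul, mul_comm, ← hab', pow_orderOf_eq_one]
      -- the subgroup generated by `V` and this power
      have hW1 : IsPGroup ℓ (Subgroup.zpowers (q ^ b)) := by
        obtain ⟨s, -, hs⟩ := (Nat.dvd_prime_pow hℓ.out).1 (orderOf_dvd_of_pow_eq_one hq1)
        exact IsPGroup.of_card (n := s) (by rw [Nat.card_zpowers, hs])
      have hW2 : Subgroup.zpowers (q ^ b) ≤ Subgroup.normalizer (V : Set G) :=
        Subgroup.zpowers_le.2 (pow_mem hqN b)
      have hW := hW1.to_sup_of_normal_right' hV.pg hW2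
      have hWx : ∀ w ∈ Subgroup.zpowers (q ^ b) ⊔ V, w * x = x * w := by
        have h6 : Subgroup.zpowers (q ^ b) ⊔ V ≤ Subgroup.centralizer ({(x : G)} : Set G) := by
          refine sup_le (Subgroup.zpowers_le.2 (pow_mem ?_ b)) ?_
          · exact Subgroup.mem_centralizer_singleton_iff.2 hqx
          · intro v hv
            exact Subgroup.mem_centralizer_singleton_iff.2 (Subgroup.mem_centralizer_iff.1 x.2 v hv)
        intro w hw
        exact Subgroup.mem_centralizer_singleton_iff.1 (h6 hw)
      have hgd : Gd e (Subgroup.zpowers (q ^ b) ⊔ V) :=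
        ⟨x, Subgroup.mem_centralizer_iff.2 fun w hw => hWx w hw, hex⟩
      have hcard := hV.mx _ hW hgd
      have h7 : V = Subgroup.zpowers (q ^ b) ⊔ V :=
        Subgroup.eq_of_le_of_card_ge le_sup_right hcard
      apply hqb'
      apply hVX
      rw [h7]
      exact (le_sup_left : Subgroup.zpowers (q ^ b) ≤ Subgroup.zpowers (q ^ b) ⊔ V)
        (Subgroup.mem_zpowers (q ^ b))
  · intro p d
    induction d using Quotient.inductionOn with
    | h x =>
      have hpN := (hPT p.2).1
      have h1 : IsConj (Quotient.out (ConjClasses.mk (cj V p hpN x))) (cj V p hpN x) := hout _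
      change k (Quotient.out (ConjClasses.mk (cj V p hpN x))) *
        labF M χ (Quotient.out (ConjClasses.mk (cj V p hpN x))) =
        k (Quotient.out (ConjClasses.mk x)) * labF M χ (Quotient.out (ConjClasses.mk x))
      rw [hkout _ _ h1, hkout _ _ (hout x), lab_conj χ h1, lab_conj χ (hout x),
        lab_inv hγ hχ hχγ hpN (hPT p.2).2 x]
      have h2 : k (cj V p hpN x) = k x := hK (x : G) (p : G)
      rw [h2]

end Pool.Agent.PP.K9.H34
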